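import Mathlib

/-!
Final arithmetic of the linear range of `M(n, I_k)`: from the lower bounds (5), (a), (b), (c) for
`T` to `0 ≤ T`, when `D ≥ 3 w + 1` and `D ≥ w + 2 k - 3`.
Here `q` is the quantity `Q - sum l_r`, `f` the number of rows with a loss, `i` the number of
incompatible columns of the fullest row, `κ` the size of the matching and `d` the number of
unmatched columns.
-/

namespace Pool.H23Lin

theorem lin_end52 (k w D h d κ i f T q : ℤ)
    (hw : 0 ≤ w) (hh : 0 ≤ h) (hd : 0 ≤ d) (hκ : 0 ≤ κ) (hi : 0 ≤ i) (hf : 0 ≤ f)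
    (hk : 1 ≤ k)
    (hκd : κ + d ≤ w) (hfD : f ≤ D - 1)
    (hD1 : 3 * w + 1 ≤ D) (hD2 : w + 2 * k - 3 ≤ D)
    (h5 : (w - κ) + w * d - w * h + q ≤ T)
    (ha : i * h + f - κ ≤ q)
    (hb : (D - 1 - κ) * h - d * f ≤ q)
    (hc : (w + 1 - d) * f - (k - 1) * (κ + i) ≤ q) : 0 ≤ T := by
  by_contra hT
  have hT1 : T ≤ -1 := by omega
  -- the bound (a)
  have A : f ≤ w * (h - d) - i * h + w - 2 * d - 1 := by nlinarith
  -- the bound (b)
  have hkh : κ * h ≤ (w - d) * h := mul_le_mul_of_nonneg_right (by omega) hh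
  have B : 1 + d + w * d + (D - 1 - 2 * w + d) * h ≤ d * f := by nlinarith
  have hih : 0 ≤ i * h := mul_nonneg hi hh
  rcases eq_or_lt_of_le hd with hd0 | hdpos
  · -- d = 0
    subst hd0
    have : 0 ≤ (D - 1 - 2 * w + 0) * h := mul_nonneg (by omega) hh
    nlinarith
  · have hd1 : 1 ≤ d := hdpos
    have hgd : 0 ≤ (D - 1 - 2 * w + d) * h := mul_nonneg (by omega) hh
    -- f ≥ w + 2
    have hfw : w + 2 ≤ f := by
      by_contra hcon
      have : f ≤ w + 1 := by omega
      have : d * f ≤ d * (w + 1) := mul_le_mul_of_nonneg_left this hd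
      nlinarith
    -- h > d
    have hhd : d + 1 ≤ h := by
      by_contra hcon
      have h1 : h - d ≤ 0 := by omega
      have : w * (h - d) ≤ 0 := mul_nonpos_of_nonneg_of_nonpos hw h1
      omega
    -- (g + d)(h - d) ≤ d (w - 1 - d) - 1
    have hdf : d * f ≤ d * (D - 1) := mul_le_mul_of_nonneg_left hfD hd
    have C1 : (D - 1 - 2 * w + d) * (h - d) ≤ d * (w - 1 - d) - 1 := by nlinarith
    have C2 : w * (h - d) ≤ (D - 1 - 2 * w + d) * (h - d) :=
      mul_le_mul_of_nonneg_right (by omega) (by omega)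
    -- w - 1 - d > 0
    have hwd : 1 ≤ w - 1 - d := by
      by_contra hcon
      have h1 : w - 1 - d ≤ 0 := by omega
      have h2 : d * (w - 1 - d) ≤ 0 := mul_nonpos_of_nonneg_of_nonpos hd h1
      have h3 : 0 ≤ w * (h - d) := mul_nonneg hw (by omega)
      omega
    -- iota ≤ w - 2 - d
    have hI : i ≤ w - 2 - d := by
      by_contra hcon
      have h1 : w - 1 - d ≤ i := by omega
      have h2 : (w - 1 - d) * h ≤ i * h := mul_le_mul_of_nonneg_right h1 hh
      have h3 : (w - 1 - d) * d ≤ (w - 1 - d) * h :=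
        mul_le_mul_of_nonneg_left (by omega) (by omega)
      nlinarith
    -- f ≥ D - w + d + 2
    have hF : D - w + d + 2 ≤ f := by
      by_contra hcon
      have h1 : f ≤ D - w + d + 1 := by omega
      have h2 : d * f ≤ d * (D - w + d + 1) := mul_le_mul_of_nonneg_left h1 hd
      have h3 : (D - 1 - 2 * w + d) * (d + 1) ≤ (D - 1 - 2 * w + d) * h :=
        mul_le_mul_of_nonneg_left hhd (by omega)
      nlinarith
    -- (c)
    have E1 : (k - 1) * (κ + i) ≤ (k - 1) * (2 * (w - d) - 2) :=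
      mul_le_mul_of_nonneg_left (by omega) (by omega)
    have E2 : (w + 1 - d) * f ≤ (k - 1) * (2 * (w - d) - 2) + d * (w - 1 - d) - 2 := by
      nlinarith
    have E3 : (w - 1 - d) * (D - w + d + 2) ≤ (w - 1 - d) * f :=
      mul_le_mul_of_nonneg_left hF (by omega)
    have E4 : (w - 1 - d) * (w + 2 * k - 3) ≤ (w - 1 - d) * D :=
      mul_le_mul_of_nonneg_left hD2 (by omega)
    nlinarith

end Pool.H23Lin
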